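import Mathlib
import Pool.Agent.Run7.h260.SX.Top

/-!
# Lehmer's problem for integer matrices with few large singular values

For an integer matrix `A` (of any size, not assumed to be symmetric or normal) let `M(A)` be the
Mahler measure of its characteristic polynomial, and let `P(A)` be the product of the singular
values of `A` that are larger than one.  By Weyl `M(A) ≤ P(A)`, and both numbers are at least one.

* If the characteristic polynomial is irreducible and `M(A) > 1` then
  `log M(A) ≥ c / (1 + log P(A)) ^ 3` with an absolute constant `c > 0`.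
* For every `K` there is `μ > 1` such that `M(A) = 1` or `M(A) ≥ μ` for all integer matrices `A` of
  all sizes with `P(A) ≤ K`.

More generally the singular values may be taken with respect to another inner product, that is
`P(A)` may be replaced by `P(S⁻¹ A S)` for any invertible complex matrix `S`; then the constants
depend also on the product `r_v` of the norms of the `v`-th row of `S` and the `v`-th column of
`S⁻¹`, for one `v` in the first statement and for all `v` in the second one.

Method.  Multiply the row `v` of `A` by `c = exp(iθ)`.  The characteristic polynomial of the new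
matrix is `(1 - c) z R_v + c χ_A`, with the diagonal minor `R_v` of `z - A`, and `P` is multiplied by
at most `(1 + 2 r_v) ^ (3/2)`.  By Weyl's inequality and Jensen's formula, the mean over `θ` gives
`∫ log max(|χ_A|, |R_v|) ≤ log 2 + (3/2) log(1 + 2 r_v) + log P(S⁻¹ A S)` over the unit circle: the
height of the pair of integer polynomials `χ_A`, `R_v` is bounded.  No zero of `χ_A` is a zero of
all the `R_v` with the full multiplicity, since their sum is the derivative of `χ_A`.
-/

set_option autoImplicit false

namespace Pool.Agent.Results.MP_7ab245_nt.SingularExcess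

open Matrix Polynomial

noncomputable section

/-- The Mahler measure of the characteristic polynomial of an integer matrix. -/
def measure {n : ℕ} (A : Matrix (Fin n) (Fin n) ℤ) : ℝ :=
  (A.charpoly.map (Int.castRingHom ℂ)).mahlerMeasure

/-- The product of the singular values larger than one of a complex matrix `X`, that is the product
of `max 1 √h` over the eigenvalues `h` of `X* X` with multiplicity. -/
def excess {n : ℕ} (X : Matrix (Fin n) (Fin n) ℂ) : ℝ :=
  (((Xᴴ * X).charpoly.roots.map fun h : ℂ => max 1 √‖h‖)).prod

/-- The product of the norms of the `v`-th row of `S` and of the `v`-th column of `T`. -/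
def rowCol {n : ℕ} (S T : Matrix (Fin n) (Fin n) ℂ) (v : Fin n) : ℝ :=
  √(∑ j, ‖S v j‖ ^ 2) * √(∑ j, ‖T j v‖ ^ 2)

/-- The integer matrix `A` as a complex matrix. -/
def toComplex {n : ℕ} (A : Matrix (Fin n) (Fin n) ℤ) : Matrix (Fin n) (Fin n) ℂ :=
  A.map (Int.castRingHom ℂ)

theorem excess_sq {n : ℕ} (X : Matrix (Fin n) (Fin n) ℂ) :
    excess X ^ 2 = (Xᴴ * X).charpoly.mahlerMeasure := by
  rw [mahlerMeasure_eq_leadingCoeff_mul_prod_roots, (charpoly_monic _).leadingCoeff, norm_one,
    one_mul]
  unfold excess
  rw [← Multiset.prod_map_pow]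
  congr 1
  refine Multiset.map_congr rfl fun h _ => ?_
  rcases le_total 1 ‖h‖ with h1 | h1
  · have h2 : 1 ≤ √‖h‖ := Real.one_le_sqrt.mpr h1
    rw [max_eq_right h1, max_eq_right h2, Real.sq_sqrt (norm_nonneg _)]
  · have h2 : √‖h‖ ≤ 1 := Real.sqrt_le_one.mpr h1
    rw [max_eq_left h1, max_eq_left h2, one_pow]

theorem one_le_excess {n : ℕ} (X : Matrix (Fin n) (Fin n) ℂ) : 1 ≤ excess X := by
  unfold excess
  refine Multiset.one_le_prod fun x hx => ?_
  obtain ⟨y, -, rfl⟩ := Multiset.mem_map.mp hx
  exact le_max_left _ _

/-- Weyl's inequality (a check of the definitions, not part of the result). -/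
theorem measure_le_excess {n : ℕ} (A : Matrix (Fin n) (Fin n) ℤ) :
    measure A ≤ excess (toComplex A) := by
  obtain ⟨H, h1, h2⟩ := Pool.Agent.Run7.h260.SX.exists_maj (toComplex A)
  have h3 := h1.weyl
  rw [h2, ← excess_sq] at h3
  have h4 : measure A = (toComplex A).charpoly.mahlerMeasure := by
    unfold measure toComplex
    rw [Matrix.charpoly_map]
  rw [h4]
  exact le_of_sq_le_sq h3 (le_trans zero_le_one (one_le_excess _))

theorem result :
    (∃ c : ℝ, 0 < c ∧ ∀ (n : ℕ) (A : Matrix (Fin n) (Fin n) ℤ), Irreducible A.charpoly →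
      1 < measure A → ∀ (S T : Matrix (Fin n) (Fin n) ℂ) (v : Fin n), S * T = 1 →
      c / (1 + Real.log (1 + rowCol S T v) + Real.log (excess (T * toComplex A * S))) ^ 3 ≤
        Real.log (measure A)) ∧
    ∀ K : ℝ, ∃ μ : ℝ, 1 < μ ∧ ∀ (n : ℕ) (A : Matrix (Fin n) (Fin n) ℤ)
      (S T : Matrix (Fin n) (Fin n) ℂ), S * T = 1 → excess (T * toComplex A * S) ≤ K →
      (∀ v, rowCol S T v ≤ K) → measure A = 1 ∨ μ ≤ measure A := by
  have hrc : ∀ {n : ℕ} (S T : Matrix (Fin n) (Fin n) ℂ) (v : Fin n),
      Pool.Agent.Run7.h260.SX.cnd S T v = rowCol S T v := by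
    intro n S T v
    unfold Pool.Agent.Run7.h260.SX.cnd rowCol
    rw [Real.sqrt_mul (Finset.sum_nonneg fun _ _ => by positivity)]
  constructor
  · obtain ⟨c, hc, h⟩ := Pool.Agent.Run7.h260.SX.matrix_irr
    refine ⟨c / 8, by positivity, fun n A h1 h2 S T v h3 => ?_⟩
    have h4 := h n A h1 h2 S T h3 v
    have h5 : (T * toComplex A * S)ᴴ * (T * toComplex A * S) =
        (T * Pool.Agent.Run7.h260.SX.cm A * S)ᴴ * (T * Pool.Agent.Run7.h260.SX.cm A * S) := rfl
    rw [← h5, ← excess_sq, Real.log_pow, hrc] at h4
    have h6 : 0 ≤ Real.log (excess (T * toComplex A * S)) := Real.log_nonneg (one_le_excess _)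
    have h7 : 0 ≤ rowCol S T v := by
      unfold rowCol
      positivity
    have h8 : 0 ≤ Real.log (1 + rowCol S T v) := Real.log_nonneg (by linarith)
    refine le_trans ?_ h4
    push_cast
    set a := Real.log (1 + rowCol S T v)
    set b := Real.log (excess (T * toComplex A * S))
    calc c / 8 / (1 + a + b) ^ 3 = c / (2 * (1 + a + b)) ^ 3 := by
          rw [mul_pow]
          field_simp
          norm_num
      _ ≤ c / (1 + a + 2 * b) ^ 3 :=
          div_le_div_of_nonneg_left hc.le (by positivity)
            (pow_le_pow_left₀ (by positivity) (by linarith) 3)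
  · intro K
    obtain ⟨μ, hμ, h⟩ := Pool.Agent.Run7.h260.SX.matrix_gap (max K (K ^ 2))
    refine ⟨μ, hμ, fun n A S T h1 h2 h3 => h n A S T h1 ?_ fun v => ?_⟩
    · have h4 : excess (T * toComplex A * S) ^ 2 ≤ K ^ 2 :=
        pow_le_pow_left₀ (le_trans zero_le_one (one_le_excess _)) h2 2
      rw [excess_sq] at h4
      exact h4.trans (le_max_right _ _)
    · rw [hrc]
      exact (h3 v).trans (le_max_left _ _)

end

end Pool.Agent.Results.MP_7ab245_nt.SingularExcess
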